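import Mathlib
import Pool.Agent.Helper832.GDStmt
import Pool.Agent.H570Z.KD

set_option autoImplicit false

namespace Pool.Agent.Results.MP_216d05_an.BoundedQ2

open Pool.Agent.Helper832.GS Pool.Agent.H570Z.KH

/-- For every infinite-dimensional complex Hilbert space `H`, the global dimension and the
bidimension of the algebra `B(H)` of bounded operators are infinite. -/
theorem result (H : Type) [NormedAddCommGroup H] [InnerProductSpace ℂ H] [CompleteSpace H]
    (hH : ¬ FiniteDimensional ℂ H) : dg (H →L[ℂ] H) = ⊤ ∧ db (H →L[ℂ] H) = ⊤ :=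
  bounded_dims hH

end Pool.Agent.Results.MP_216d05_an.BoundedQ2
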